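import Pool.Agent.H.MP_18694c_nt.Sieve

set_option autoImplicit false

namespace Pool.Agent.H.MP_18694c_nt

open Finset

lemma g_le (n p : ℕ) (hn : 0 < n) (hp : p.Prime) :
    ((range p).filter (fun t => t ^ n % p = 1 % p)).card ≤ Nat.gcd n (p - 1) := by
  classical
  have := Fact.mk hp
  have hd : 0 < Nat.gcd n (p - 1) := Nat.gcd_pos_of_pos_left _ hn
  refine le_trans ?_ ((Multiset.toFinset_card_le _).trans
    (Polynomial.card_nthRoots (Nat.gcd n (p - 1)) (1 : ZMod p)))
  apply card_le_card_of_injOn (fun t : ℕ => (t : ZMod p))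
  · intro t ht
    simp only [coe_filter, mem_range, Set.mem_ofPred_eq] at ht
    have h1 : (t : ZMod p) ^ n = 1 := by
      have := (ZMod.natCast_eq_natCast_iff' (t ^ n) 1 p).mpr ht.2
      simpa using this
    have h0 : (t : ZMod p) ≠ 0 := by
      intro h
      rw [h, zero_pow hn.ne'] at h1
      exact zero_ne_one h1
    have h2 := ZMod.pow_card_sub_one_eq_one h0
    simp only [mem_coe, Multiset.mem_toFinset, Polynomial.mem_nthRoots hd]
    exact pow_gcd_eq_one.mpr ⟨h1, h2⟩
  · intro s hs t ht e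
    simp only [coe_filter, mem_range, Set.mem_ofPred_eq] at hs ht
    have := (ZMod.natCast_eq_natCast_iff' s t p).mp e
    rwa [Nat.mod_eq_of_lt hs.1, Nat.mod_eq_of_lt ht.1] at this

lemma card_P (n : ℕ) (hn : 0 < n) : (2 ^ n - 1).primeFactors.card ≤ n := by
  have h0 : 0 < 2 ^ n - 1 := by
    have : 1 < 2 ^ n := Nat.one_lt_two_pow hn.ne'
    omega
  have h1 : 2 ^ (2 ^ n - 1).primeFactors.card ≤ ∏ p ∈ (2 ^ n - 1).primeFactors, p :=
    pow_card_le_prod _ _ _ (fun p hp => (Nat.prime_of_mem_primeFactors hp).two_le)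
  have h2 := Nat.le_of_dvd h0 (Nat.prod_primeFactors_dvd (2 ^ n - 1))
  have h3 : 2 ^ (2 ^ n - 1).primeFactors.card ≤ 2 ^ n := by omega
  exact (Nat.pow_le_pow_iff_right (by norm_num)).mp h3

lemma S_bound (n : ℕ) (hn : 0 < n) (P : Finset ℕ) (hP : ∀ p ∈ P, p.Prime) (hc : P.card ≤ n) :
    ∑ p ∈ P, ((Nat.gcd n (p - 1) : ℝ) / p) ≤ n.divisors.card * (2 + 2 * Real.log n) := by
  have hn' : (0:ℝ) < n := by exact_mod_cast hn
  rw [← sum_filter_add_sum_filter_not P (fun p => p ≤ n ^ 2)]
  have a1 : ∑ p ∈ P.filter (fun p => ¬ p ≤ n ^ 2), ((Nat.gcd n (p - 1) : ℝ) / p) ≤ 1 := by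
    have : ∀ p ∈ P.filter (fun p => ¬ p ≤ n ^ 2), ((Nat.gcd n (p - 1) : ℝ) / p) ≤ 1 / n := by
      intro p hp
      have h1 : n ^ 2 ≤ p := by have := (mem_filter.mp hp).2; omega
      have h2 : Nat.gcd n (p - 1) ≤ n := Nat.gcd_le_left _ hn
      have h1' : (n:ℝ) ^ 2 ≤ p := by exact_mod_cast h1
      have h2' : (Nat.gcd n (p - 1) : ℝ) ≤ n := by exact_mod_cast h2
      rw [div_le_div_iff₀ (by nlinarith) hn']
      nlinarith
    refine (sum_le_card_nsmul _ _ _ this).trans ?_
    rw [nsmul_eq_mul, mul_one_div, div_le_one hn']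
    exact_mod_cast (card_filter_le _ _).trans hc
  have a2 : ∑ p ∈ P.filter (fun p => p ≤ n ^ 2), ((Nat.gcd n (p - 1) : ℝ) / p) ≤
      ∑ z ∈ n.divisors ×ˢ Icc 1 (n ^ 2), ((z.2 : ℝ))⁻¹ := by
    have inj : Set.InjOn (fun p => (Nat.gcd n (p - 1), (p - 1) / Nat.gcd n (p - 1)))
        (P.filter (fun p => p ≤ n ^ 2) : Set ℕ) := by
      intro p hp q hq e
      simp only [coe_filter, Set.mem_ofPred_eq, Prod.mk.injEq] at hp hq e
      have h1 := Nat.mul_div_cancel' (Nat.gcd_dvd_right n (p - 1))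
      have h2 := Nat.mul_div_cancel' (Nat.gcd_dvd_right n (q - 1))
      have := (hP p hp.1).pos
      have := (hP q hq.1).pos
      rw [e.2, e.1] at h1
      omega
    calc _ ≤ ∑ p ∈ P.filter (fun p => p ≤ n ^ 2),
          ((((p - 1) / Nat.gcd n (p - 1) : ℕ) : ℝ))⁻¹ := by
          apply sum_le_sum
          intro p hp
          have hp2 := (hP p (mem_filter.mp hp).1).two_le
          have h1 := Nat.mul_div_cancel' (Nat.gcd_dvd_right n (p - 1))
          have h3 : 0 < (p - 1) / Nat.gcd n (p - 1) := by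
            rcases Nat.eq_zero_or_pos ((p - 1) / Nat.gcd n (p - 1)) with h | h
            · rw [h] at h1; omega
            · exact h
          have h4 : Nat.gcd n (p - 1) * ((p - 1) / Nat.gcd n (p - 1)) ≤ p := by omega
          generalize (p - 1) / Nat.gcd n (p - 1) = m at *
          have h3' : (0:ℝ) < m := by exact_mod_cast h3
          have hp' : (0:ℝ) < p := by exact_mod_cast (by omega : 0 < p)
          rw [← one_div, div_le_div_iff₀ hp' h3', one_mul]
          exact_mod_cast h4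
      _ = ∑ z ∈ (P.filter (fun p => p ≤ n ^ 2)).image
          (fun p => (Nat.gcd n (p - 1), (p - 1) / Nat.gcd n (p - 1))), ((z.2 : ℝ))⁻¹ := by
          rw [sum_image inj]
      _ ≤ _ := by
          apply sum_le_sum_of_subset_of_nonneg
          · intro z hz
            obtain ⟨p, hp, rfl⟩ := mem_image.mp hz
            have hp1 := mem_filter.mp hp
            have hp2 := (hP p hp1.1).two_le
            have h1 := Nat.mul_div_cancel' (Nat.gcd_dvd_right n (p - 1))
            have h3 : 0 < (p - 1) / Nat.gcd n (p - 1) := by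
              rcases Nat.eq_zero_or_pos ((p - 1) / Nat.gcd n (p - 1)) with h | h
              · rw [h] at h1; omega
              · exact h
            have h4 : (p - 1) / Nat.gcd n (p - 1) ≤ p - 1 := Nat.div_le_self _ _
            simp only [mem_product, Nat.mem_divisors, mem_Icc]
            exact ⟨⟨Nat.gcd_dvd_left _ _, hn.ne'⟩, h3, by omega⟩
          · intro z _ _
            positivity
  have a3 : ∑ m ∈ Icc 1 (n ^ 2), ((m : ℝ))⁻¹ ≤ 1 + 2 * Real.log n := by
    have h := harmonic_le_one_add_log (n ^ 2)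
    rw [harmonic_eq_sum_Icc] at h
    push_cast at h
    rw [Real.log_pow] at h
    exact_mod_cast h
  rw [sum_product] at a2
  simp only [sum_const, nsmul_eq_mul] at a2
  have t1 : (1:ℝ) ≤ n.divisors.card := by
    have : 0 < n.divisors.card := card_pos.mpr ⟨1, by simp [hn.ne']⟩
    exact_mod_cast this
  have a4 := mul_le_mul_of_nonneg_left a3 (by linarith : (0:ℝ) ≤ n.divisors.card)
  linarith

lemma one_sub_ge (n p g : ℕ) (hn : 2 ≤ n) (h1 : g ≤ n) (h2 : g + 1 ≤ p) :
    Real.exp (-(2 * Real.log (2 * n)) * (g / p)) ≤ 1 - (g:ℝ) / p := by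
  have hp : (0:ℝ) < p := by exact_mod_cast (by omega : 0 < p)
  have hn' : (2:ℝ) ≤ n := by exact_mod_cast hn
  have hl : 1 ≤ Real.log (2 * n) := by
    rw [Real.le_log_iff_exp_le (by linarith)]
    have := Real.exp_one_lt_d9
    linarith
  have x0 : (0:ℝ) ≤ g / p := by positivity
  by_cases h : (g:ℝ) / p ≤ 1 / 2
  · generalize (g:ℝ) / p = x at *
    have a1 : Real.exp (-(2 * Real.log (2 * n)) * x) ≤ Real.exp (-(2 * x)) := by
      apply Real.exp_le_exp.mpr; nlinarith
    have a2 : 2 * x + 1 ≤ Real.exp (2 * x) := Real.add_one_le_exp _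
    refine a1.trans ?_
    rw [Real.exp_neg, inv_le_iff_one_le_mul₀ (Real.exp_pos _)]
    nlinarith
  · push Not at h
    have a1 : Real.exp (-(2 * Real.log (2 * n)) * (g / p)) ≤ Real.exp (-Real.log (2 * n)) := by
      apply Real.exp_le_exp.mpr; nlinarith
    refine a1.trans ?_
    rw [Real.exp_neg, Real.exp_log (by linarith)]
    rw [lt_div_iff₀ hp] at h
    have h1' : (g:ℝ) ≤ n := by exact_mod_cast h1
    have h2' : (g:ℝ) + 1 ≤ p := by exact_mod_cast h2
    have : 1 - (g:ℝ) / p = (p - g) / p := by field_simp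
    rw [this, ← one_div, div_le_div_iff₀ (by linarith) hp]
    nlinarith

lemma exists_k (n : ℕ) (hn : 2 ≤ n) (B : ℝ) (hB : n.divisors.card * (2 + 2 * Real.log n) ≤ B) :
    ∃ k : ℕ, 2 ≤ k ∧ Nat.Coprime (k ^ n - 1) (2 ^ n - 1) ∧
      (k:ℝ) < Real.exp (2 * Real.log (2 * n) * B + 3 +
        2 * Real.log n * (2 * ((2 * Real.log (2 * n) + 2) * B) + 3)) := by
  have hn' : (2:ℝ) ≤ n := by exact_mod_cast hn
  have hl : 1 ≤ Real.log (2 * n) := by
    rw [Real.le_log_iff_exp_le (by linarith)]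
    have := Real.exp_one_lt_d9
    linarith
  have hl0 : 0 ≤ Real.log n := Real.log_nonneg (by linarith)
  have B0 : 0 ≤ B := le_trans (by positivity) hB
  set A := 2 * Real.log (2 * n) with hA
  set P := (2 ^ n - 1).primeFactors with hPdef
  have hP : ∀ p ∈ P, p.Prime := fun p hp => Nat.prime_of_mem_primeFactors hp
  have hc : P.card ≤ n := card_P n (by omega)
  set g : ℕ → ℝ := fun p => ((range p).filter (fun t => t ^ n % p = 1 % p)).card with hg
  have g0 : ∀ p, 0 ≤ g p := fun p => Nat.cast_nonneg _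
  have hS : ∑ p ∈ P, g p / p ≤ B := by
    refine le_trans ?_ ((S_bound n (by omega) P hP hc).trans hB)
    apply sum_le_sum
    intro p hp
    have : g p ≤ Nat.gcd n (p - 1) := by
      simp only [hg]; exact_mod_cast g_le n p (by omega) (hP p hp)
    exact div_le_div_of_nonneg_right this (Nat.cast_nonneg _)
  set r := 2 * ⌈(A + 2) * B⌉₊ + 1 with hr
  have r1 : (r:ℝ) ≤ 2 * ((A + 2) * B) + 3 := by
    have := Nat.ceil_lt_add_one (a := (A + 2) * B) (by positivity)
    simp only [hr]; push_cast; linarith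
  have r2 : 2 * Real.exp ((A + 2) * B) ≤ 2 ^ r := by
    have h1 : Real.exp ((A + 2) * B) ≤ Real.exp (⌈(A + 2) * B⌉₊ * 1) := by
      apply Real.exp_le_exp.mpr; rw [mul_one]; exact Nat.le_ceil _
    rw [Real.exp_nat_mul] at h1
    have h2 : Real.exp 1 ^ ⌈(A + 2) * B⌉₊ ≤ 4 ^ ⌈(A + 2) * B⌉₊ := by
      apply pow_le_pow_left₀ (Real.exp_pos _).le
      have := Real.exp_one_lt_d9
      linarith
    rw [hr, pow_succ, pow_mul]
    norm_num
    linarith
  set W := ((n:ℝ) ^ 2) ^ r with hW
  have l1 : (1:ℝ) ≤ (n:ℝ) ^ 2 := by nlinarith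
  have W1 : 1 ≤ W := one_le_pow₀ l1
  set L := ⌈12 * W * Real.exp (A * B)⌉₊ with hL
  have sv := sieve P hP (fun p t => t ^ n % p = 1 % p) (by
    intro p t
    rw [← Nat.pow_mod]) r L ⟨_, rfl⟩ ((n:ℝ) ^ 2) l1 g (fun p => rfl)
  have m1 : Real.exp (-(A * B)) ≤ ∏ p ∈ P, (1 - g p / p) := by
    calc _ ≤ Real.exp (∑ p ∈ P, -A * (g p / p)) := by
          apply Real.exp_le_exp.mpr
          rw [← mul_sum]
          nlinarith
      _ = ∏ p ∈ P, Real.exp (-A * (g p / p)) := Real.exp_sum _ _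
      _ ≤ _ := by
          apply prod_le_prod (fun p _ => (Real.exp_pos _).le)
          intro p hp
          have h1 := g_le n p (by omega) (hP p hp)
          have h2 : Nat.gcd n (p - 1) ≤ n := Nat.gcd_le_left _ (by omega)
          have h4 := (hP p hp).two_le
          have h3 : Nat.gcd n (p - 1) ≤ p - 1 := Nat.gcd_le_right _ (by omega)
          exact one_sub_ge n p _ hn (h1.trans h2) (by omega)
  have m2 : ∏ p ∈ P, (1 + 2 * (g p / p)) ≤ Real.exp (2 * B) := by
    calc _ ≤ ∏ p ∈ P, Real.exp (2 * (g p / p)) := by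
          apply prod_le_prod
          · intro p _; have := g0 p; positivity
          · intro p _; rw [add_comm]; exact Real.add_one_le_exp _
      _ = Real.exp (∑ p ∈ P, 2 * (g p / p)) := (Real.exp_sum _ _).symm
      _ ≤ _ := by
          apply Real.exp_le_exp.mpr
          rw [← mul_sum]
          linarith
  have m3 : ∏ p ∈ P, (1 + g p / (n:ℝ) ^ 2) ≤ 3 := by
    calc _ ≤ ∏ p ∈ P, Real.exp (g p / (n:ℝ) ^ 2) := by
          apply prod_le_prod
          · intro p _; have := g0 p; positivity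
          · intro p _; rw [add_comm]; exact Real.add_one_le_exp _
      _ = Real.exp (∑ p ∈ P, g p / (n:ℝ) ^ 2) := (Real.exp_sum _ _).symm
      _ ≤ Real.exp 1 := by
          apply Real.exp_le_exp.mpr
          have : ∀ p ∈ P, g p / (n:ℝ) ^ 2 ≤ 1 / n := by
            intro p hp
            have h1 := g_le n p (by omega) (hP p hp)
            have h2 : Nat.gcd n (p - 1) ≤ n := Nat.gcd_le_left _ (by omega)
            have h3 : g p ≤ n := by simp only [hg]; exact_mod_cast h1.trans h2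
            rw [div_le_div_iff₀ (by positivity) (by linarith)]
            nlinarith
          refine (sum_le_card_nsmul _ _ _ this).trans ?_
          rw [nsmul_eq_mul, mul_one_div, div_le_one (by linarith)]
          exact_mod_cast hc
      _ ≤ 3 := by have := Real.exp_one_lt_d9; linarith
  have m4 : (∏ p ∈ P, (1 + 2 * (g p / p))) / 2 ^ r ≤ Real.exp (-(A * B)) / 2 := by
    rw [div_le_div_iff₀ (by positivity) (by norm_num)]
    have : Real.exp (2 * B) = Real.exp (-(A * B)) * Real.exp ((A + 2) * B) := by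
      rw [← Real.exp_add]; congr 1; ring
    have h2 := mul_le_mul_of_nonneg_left r2 (Real.exp_pos (-(A * B))).le
    nlinarith
  have L1 : 12 * W * Real.exp (A * B) ≤ L := Nat.le_ceil _
  have L2 : (L:ℝ) < 12 * W * Real.exp (A * B) + 1 := Nat.ceil_lt_add_one (by positivity)
  have ee : Real.exp (A * B) * Real.exp (-(A * B)) = 1 := by rw [← Real.exp_add]; simp
  have m5 : 6 * W ≤ L * (∏ p ∈ P, (1 - g p / p) - (∏ p ∈ P, (1 + 2 * (g p / p))) / 2 ^ r) := by
    calc 6 * W = (12 * W * Real.exp (A * B)) * (Real.exp (-(A * B)) / 2) := by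
          linear_combination (-6 * W) * ee
      _ ≤ _ := by
          apply mul_le_mul L1 (by linarith) (by positivity) (Nat.cast_nonneg _)
  have m6 : W * ∏ p ∈ P, (1 + g p / (n:ℝ) ^ 2) ≤ W * 3 :=
    mul_le_mul_of_nonneg_left m3 (by linarith)
  have m7 : (2:ℝ) < ((range L).filter (fun t => ∀ p ∈ P, ¬ t ^ n % p = 1 % p)).card := by
    linarith
  have m8 : (range 2).card < ((range L).filter (fun t => ∀ p ∈ P, ¬ t ^ n % p = 1 % p)).card := by
    rw [card_range]; exact_mod_cast m7
  obtain ⟨k, k1, k2⟩ := exists_mem_notMem_of_card_lt_card m8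
  simp only [mem_filter, mem_range, not_lt] at k1 k2
  refine ⟨k, k2, ?_, ?_⟩
  · apply Nat.Coprime.symm
    apply Nat.coprime_of_dvd
    intro p hp h1 h2
    have h0 : 2 ^ n - 1 ≠ 0 := by
      have : 1 < 2 ^ n := Nat.one_lt_two_pow (by omega)
      omega
    apply k1.2 p (Nat.mem_primeFactors.mpr ⟨hp, h1, h0⟩)
    exact ((Nat.modEq_iff_dvd' (Nat.one_le_pow _ _ (by omega))).mpr h2).symm
  · have k3 : (k:ℝ) + 1 ≤ L := by exact_mod_cast k1.1
    have w1 : W ≤ Real.exp (2 * Real.log n * (2 * ((A + 2) * B) + 3)) := by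
      have : W = Real.exp (2 * Real.log n * r) := by
        rw [hW, mul_comm, Real.exp_nat_mul, show (2:ℝ) * Real.log n = (2:ℕ) * Real.log n by norm_num,
          Real.exp_nat_mul, Real.exp_log (by linarith)]
      rw [this]
      apply Real.exp_le_exp.mpr
      exact mul_le_mul_of_nonneg_left r1 (by positivity)
    have w2 : (12:ℝ) ≤ Real.exp 3 := by
      have h1 := Real.exp_one_gt_d9
      have : Real.exp 3 = Real.exp 1 ^ 3 := by rw [← Real.exp_nat_mul]; norm_num
      rw [this]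
      have : (2.7:ℝ) ^ 3 ≤ Real.exp 1 ^ 3 := pow_le_pow_left₀ (by norm_num) (by linarith) 3
      linarith [show (12:ℝ) ≤ 2.7 ^ 3 by norm_num]
    rw [Real.exp_add, Real.exp_add]
    have w3 : 12 * W ≤ Real.exp 3 * Real.exp (2 * Real.log n * (2 * ((A + 2) * B) + 3)) :=
      mul_le_mul w2 w1 (by linarith) (by linarith)
    have w4 := mul_le_mul_of_nonneg_right w3 (Real.exp_pos (A * B)).le
    nlinarith

end Pool.Agent.H.MP_18694c_nt
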