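import Mathlib

set_option autoImplicit false

namespace Pool.Agent.H.MP_18694c_nt

open Finset

lemma crt2 (a b : ℕ) (hab : Nat.Coprime a b) (ha : 0 < a) (hb : 0 < b) (P Q : ℕ → Prop)
    [DecidablePred P] [DecidablePred Q]
    (hP : ∀ t, P t ↔ P (t % a)) (hQ : ∀ t, Q t ↔ Q (t % b)) :
    ((range (a * b)).filter (fun t => P t ∧ Q t)).card =
      ((range a).filter P).card * ((range b).filter Q).card := by
  rw [← card_product]
  apply card_nbij' (fun t => (t % a, t % b)) (fun z => (Nat.chineseRemainder hab z.1 z.2 : ℕ))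
  · intro t ht
    simp only [coe_filter, mem_range, Set.mem_ofPred_eq, coe_product, Set.mem_prod] at ht ⊢
    exact ⟨⟨Nat.mod_lt _ ha, (hP t).mp ht.2.1⟩, ⟨Nat.mod_lt _ hb, (hQ t).mp ht.2.2⟩⟩
  · intro z hz
    simp only [coe_filter, mem_range, Set.mem_ofPred_eq, coe_product, Set.mem_prod] at hz ⊢
    have h := (Nat.chineseRemainder hab z.1 z.2).2
    refine ⟨Nat.chineseRemainder_lt_mul hab _ _ ha.ne' hb.ne', ?_, ?_⟩
    · rw [hP, h.1, ← hP]; exact hz.1.2
    · rw [hQ, h.2, ← hQ]; exact hz.2.2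
  · intro t ht
    simp only [coe_filter, mem_range, Set.mem_ofPred_eq] at ht
    have h := (Nat.chineseRemainder hab (t % a) (t % b)).2
    have h2 : (Nat.chineseRemainder hab (t % a) (t % b) : ℕ) ≡ t [MOD a * b] :=
      (Nat.modEq_and_modEq_iff_modEq_mul hab).mp
        ⟨h.1.trans (Nat.mod_modEq _ _), h.2.trans (Nat.mod_modEq _ _)⟩
    exact Nat.ModEq.eq_of_lt_of_lt h2 (Nat.chineseRemainder_lt_mul hab _ _ ha.ne' hb.ne') ht.1
  · intro z hz
    simp only [coe_filter, mem_range, Set.mem_ofPred_eq, coe_product, Set.mem_prod] at hz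
    have h := (Nat.chineseRemainder hab z.1 z.2).2
    have h1 : (Nat.chineseRemainder hab z.1 z.2 : ℕ) % a = z.1 := by
      rw [h.1, Nat.mod_eq_of_lt hz.1.1]
    have h2 : (Nat.chineseRemainder hab z.1 z.2 : ℕ) % b = z.2 := by
      rw [h.2, Nat.mod_eq_of_lt hz.2.1]
    simp only [h1, h2]

lemma crt (b : ℕ → ℕ → Prop) [∀ p, DecidablePred (b p)] (hb : ∀ p t, b p t ↔ b p (t % p))
    (D : Finset ℕ) (hD : ∀ p ∈ D, p.Prime) :
    ((range (∏ p ∈ D, p)).filter (fun t => ∀ p ∈ D, b p t)).card =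
      ∏ p ∈ D, ((range p).filter (b p)).card := by
  induction D using Finset.induction_on with
  | empty => simp
  | insert q D hq ih =>
    have hq' : q.Prime := hD q (mem_insert_self _ _)
    have hD' : ∀ p ∈ D, p.Prime := fun p hp => hD p (mem_insert_of_mem hp)
    rw [prod_insert hq, prod_insert hq, ← ih hD']
    have hc : Nat.Coprime q (∏ p ∈ D, p) := by
      apply Nat.Coprime.prod_right
      intro p hp
      exact (Nat.coprime_primes hq' (hD' p hp)).mpr (fun e => hq (e ▸ hp))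
    rw [← crt2 q (∏ p ∈ D, p) hc hq'.pos (prod_pos fun p hp => (hD' p hp).pos) (b q)
      (fun t => ∀ p ∈ D, b p t) (hb q)]
    · congr 1
      apply filter_congr
      intro t _
      simp
    · intro t
      apply forall₂_congr
      intro p hp
      rw [hb p t, hb p (t % ∏ p ∈ D, p), Nat.mod_mod_of_dvd _ (dvd_prod_of_mem _ hp)]

lemma per_mul (m : ℕ) (P : ℕ → Prop) [DecidablePred P] (hP : ∀ t, P t ↔ P (t % m)) (q : ℕ) :
    Nat.count P (q * m) = q * Nat.count P m := by
  induction q with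
  | zero => simp
  | succ q ih =>
    rw [show (q + 1) * m = q * m + m by ring, Nat.count_add, ih, add_mul, one_mul]
    congr 1
    have : (fun k => P (q * m + k)) = P := by
      funext k
      apply propext
      rw [hP, hP k, Nat.mul_add_mod_self_right]
    simp only [this]

lemma per_count (m : ℕ) (hm : 0 < m) (P : ℕ → Prop) [DecidablePred P] (hP : ∀ t, P t ↔ P (t % m))
    (L : ℕ) :
    |(((range L).filter P).card : ℝ) - L * (((range m).filter P).card / m)| ≤
      ((range m).filter P).card := by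
  rw [← Nat.count_eq_card_filter_range, ← Nat.count_eq_card_filter_range]
  have h1 : Nat.count P (L / m * m) ≤ Nat.count P L := Nat.count_monotone P (Nat.div_mul_le_self L m)
  have h3 : L < (L / m + 1) * m := by
    have := Nat.lt_div_mul_add (a := L) hm
    rw [add_mul, one_mul]; exact this
  have h2 : Nat.count P L ≤ Nat.count P ((L / m + 1) * m) := Nat.count_monotone P h3.le
  rw [per_mul m P hP] at h1 h2
  have h4 : L / m * m ≤ L := Nat.div_mul_le_self L m
  generalize L / m = q at *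
  generalize Nat.count P m = C at *
  generalize Nat.count P L = X at *
  have hm' : (0:ℝ) < m := by exact_mod_cast hm
  have h1' : (q:ℝ) * C ≤ X := by exact_mod_cast h1
  have h2' : (X:ℝ) ≤ (q + 1) * C := by exact_mod_cast h2
  have h3' : (L:ℝ) ≤ (q + 1) * m := by exact_mod_cast h3.le
  have h4' : (q:ℝ) * m ≤ L := by exact_mod_cast h4
  have hC : (0:ℝ) ≤ C := Nat.cast_nonneg _
  have e : (L:ℝ) * (C / m) = (L / m) * C := by ring
  have a1 : (q:ℝ) ≤ L / m := by rw [le_div_iff₀ hm']; exact h4'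
  have a2 : (L:ℝ) / m ≤ q + 1 := by rw [div_le_iff₀ hm']; exact h3'
  rw [e, abs_le]
  constructor <;> nlinarith

noncomputable def f (r j : ℕ) : ℝ := if j ≤ r then (-1) ^ j else 0

lemma bonf (r : ℕ) (hr : Odd r) (T : Finset ℕ) :
    ∑ D ∈ T.powerset, f r D.card ≤ if T = ∅ then 1 else 0 := by
  rcases T.eq_empty_or_nonempty with rfl | ⟨a, ha⟩
  · simp [f]
  · have hne : T ≠ ∅ := ne_empty_of_mem ha
    rw [if_neg hne, ← insert_erase ha, sum_powerset_insert (notMem_erase a T), ← sum_add_distrib]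
    apply sum_nonpos
    intro D hD
    have : a ∉ D := fun h => notMem_erase a T (mem_powerset.mp hD h)
    rw [card_insert_of_notMem this]
    unfold f
    split_ifs with h1 h2 h2
    · rw [pow_succ]; linarith
    · have : D.card = r := by omega
      rw [this, hr.neg_one_pow]; norm_num
    · omega
    · simp

lemma f_ge (r j : ℕ) : (-1:ℝ) ^ j - 2 ^ j / 2 ^ r ≤ f r j := by
  unfold f
  split_ifs with h
  · have : (0:ℝ) ≤ 2 ^ j / 2 ^ r := by positivity
    linarith
  · have h1 : (1:ℝ) ≤ 2 ^ j / 2 ^ r := by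
      rw [le_div_iff₀ (by positivity), one_mul]
      exact pow_le_pow_right₀ (by norm_num) (by omega)
    have h2 : (-1:ℝ) ^ j ≤ 1 := by
      rcases neg_one_pow_eq_or ℝ j with h | h <;> rw [h] <;> norm_num
    linarith

lemma f_abs (r j : ℕ) (l : ℝ) (hl : 1 ≤ l) : |f r j| ≤ l ^ r / l ^ j := by
  unfold f
  split_ifs with h
  · rw [abs_pow, abs_neg, abs_one, one_pow, le_div_iff₀ (by positivity), one_mul]
    exact pow_le_pow_right₀ hl h
  · rw [abs_zero]; positivity

lemma sieve (P : Finset ℕ) (hP : ∀ p ∈ P, p.Prime) (b : ℕ → ℕ → Prop) [∀ p, DecidablePred (b p)]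
    (hb : ∀ p t, b p t ↔ b p (t % p)) (r L : ℕ) (hr : Odd r) (l : ℝ) (hl : 1 ≤ l)
    (g : ℕ → ℝ) (hg : ∀ p, g p = ((range p).filter (b p)).card) :
    L * (∏ p ∈ P, (1 - g p / p) - (∏ p ∈ P, (1 + 2 * (g p / p))) / 2 ^ r)
      - l ^ r * ∏ p ∈ P, (1 + g p / l) ≤ ((range L).filter (fun t => ∀ p ∈ P, ¬ b p t)).card := by
  have g0 : ∀ p, 0 ≤ g p := fun p => by rw [hg]; exact Nat.cast_nonneg _
  have s1 : ∑ t ∈ range L, ∑ D ∈ (P.filter (fun p => b p t)).powerset, f r D.card ≤
      ((range L).filter (fun t => ∀ p ∈ P, ¬ b p t)).card := by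
    rw [card_filter]
    push_cast
    apply sum_le_sum
    intro t _
    refine (bonf r hr _).trans (le_of_eq ?_)
    simp only [filter_eq_empty_iff]
  have s2 : ∑ t ∈ range L, ∑ D ∈ (P.filter (fun p => b p t)).powerset, f r D.card =
      ∑ D ∈ P.powerset, f r D.card * ((range L).filter (fun t => ∀ p ∈ D, b p t)).card := by
    have : ∀ t, ∑ D ∈ (P.filter (fun p => b p t)).powerset, f r D.card =
        ∑ D ∈ P.powerset, if (∀ p ∈ D, b p t) then f r D.card else 0 := by
      intro t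
      rw [← sum_filter]
      apply sum_congr _ (fun _ _ => rfl)
      ext D
      simp only [mem_powerset, mem_filter, subset_iff]
      constructor
      · intro h; exact ⟨fun x hx => (h hx).1, fun x hx => (h hx).2⟩
      · intro h x hx; exact ⟨h.1 hx, h.2 x hx⟩
    simp only [this]
    rw [sum_comm]
    apply sum_congr rfl
    intro D _
    rw [← sum_filter, sum_const, nsmul_eq_mul, mul_comm]
  have e1 : ∏ p ∈ P, (1 - g p / p) = ∑ D ∈ P.powerset, (-1) ^ D.card * ∏ p ∈ D, (g p / p) := by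
    simp only [sub_eq_add_neg]
    rw [prod_one_add]
    apply sum_congr rfl
    intro D _
    rw [prod_neg]
  have e2 : ∏ p ∈ P, (1 + 2 * (g p / p)) = ∑ D ∈ P.powerset, 2 ^ D.card * ∏ p ∈ D, (g p / p) := by
    rw [prod_one_add]
    apply sum_congr rfl
    intro D _
    rw [prod_mul_distrib, prod_const]
  have e3 : ∏ p ∈ P, (1 + g p / l) = ∑ D ∈ P.powerset, (∏ p ∈ D, g p) / l ^ D.card := by
    rw [prod_one_add]
    apply sum_congr rfl
    intro D _
    rw [prod_div_distrib, prod_const]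
  refine le_trans ?_ s1
  rw [s2, e1, e2, e3, sum_div, ← sum_sub_distrib, mul_sum, mul_sum, ← sum_sub_distrib]
  apply sum_le_sum
  intro D hD
  have hD' : ∀ p ∈ D, p.Prime := fun p hp => hP p (mem_powerset.mp hD hp)
  have c := per_count (∏ p ∈ D, p) (prod_pos fun p hp => (hD' p hp).pos)
    (fun t => ∀ p ∈ D, b p t) (by
      intro t
      apply forall₂_congr
      intro p hp
      rw [hb p t, hb p (t % ∏ p ∈ D, p), Nat.mod_mod_of_dvd _ (dvd_prod_of_mem _ hp)]) L
  rw [crt b hb D hD'] at c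
  push_cast at c
  simp only [← hg] at c
  rw [← prod_div_distrib] at c
  have x0 : 0 ≤ ∏ p ∈ D, (g p / p) := prod_nonneg fun p _ => by have := g0 p; positivity
  have G0 : 0 ≤ ∏ p ∈ D, g p := prod_nonneg fun p _ => g0 p
  generalize ∏ p ∈ D, (g p / (p:ℝ)) = x at *
  generalize ∏ p ∈ D, g p = G at *
  generalize (((range L).filter (fun t => ∀ p ∈ D, b p t)).card : ℝ) = X at *
  have h1 := f_ge r D.card
  have h2 := f_abs r D.card l hl
  generalize f r D.card = F at *
  have h3 : |F * (X - L * x)| ≤ l ^ r / l ^ D.card * G := by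
    rw [abs_mul]
    exact mul_le_mul h2 c (abs_nonneg _) (by positivity)
  have h4 := (abs_le.mp h3).1
  have h5 : (L:ℝ) * x * ((-1) ^ D.card - 2 ^ D.card / 2 ^ r) ≤ L * x * F :=
    mul_le_mul_of_nonneg_left h1 (by positivity)
  have e4 : l ^ r * (G / l ^ D.card) = l ^ r / l ^ D.card * G := by ring
  have e5 : (L:ℝ) * ((-1) ^ D.card * x - 2 ^ D.card * x / 2 ^ r) =
      L * x * ((-1) ^ D.card - 2 ^ D.card / 2 ^ r) := by ring
  rw [e4, e5]
  nlinarith

end Pool.Agent.H.MP_18694c_nt
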